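import Pool.Agent.Q333.KL.Asm
import Pool.Agent.Q333.KL.TaskKLlow
import Pool.Agent.Q333.KL.TaskGauss
import Pool.Agent.Q333.KL.TaskLap
import Pool.Agent.Q333.KL.TaskKLfin
import Pool.Agent.Q333.KL.TaskLimit
import Pool.Agent.Q333.KL.TaskZZ
import Pool.Agent.Q333.KL.TaskNorm
import Pool.Agent.Q333.KL.TaskDisp
import Pool.Agent.Q333.KL.TaskMean
import Pool.Agent.Q333.KL.TaskWMeas
import Pool.Agent.Q333.KL.TaskHalf
import Pool.Agent.Q333.KL.TaskInd
import Pool.Agent.Q333.KL.TaskGibbs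

/-!
# No uniform exponential rate in relative entropy for the Zig-Zag process and the Bouncy Particle Sampler

The potential is `U(x) = x² / 2` on the line, so that `π` is the standard Gaussian law (which satisfies the
logarithmic Sobolev inequality, by the theorem of Gross). The two processes have finite speed, so they
cannot forget an initial law with the tail `e^{-a|x|}` faster than with the rate of order `a`.
-/

set_option autoImplicit false

open MeasureTheory ProbabilityTheory InformationTheory Set Filter Topology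
open scoped ENNReal NNReal

namespace Pool.Agent.Results.MP_2024f4_pr.NoUniformRate

open Pool.Agent.Q333.KL

/-- `KL(p_t ‖ μ) ≤ C₀ e^{-λ t}` for all `t ≥ 0` and some constant `C₀`, `p_t` the law of `(x_t, v_t)`. -/
def EntropyDecay {Ω : Type} [MeasurableSpace Ω] (P : Measure Ω) (x v : ℝ → Ω → ℝ)
    (μ : Measure (ℝ × ℝ)) (l : ℝ) : Prop :=
  ∃ C₀ : ℝ, ∀ t, 0 ≤ t → klDiv (P.map fun ω => (x t ω, v t ω)) μ ≤
    ENNReal.ofReal (C₀ * Real.exp (-(l * t)))

/-- For `U(x) = x² / 2`, all refreshment rates `γ > 0` and all `λ > 0` there is an initial law `p₀` with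
exponential tails and `KL(p₀ ‖ μ) < ∞` such that the bound `KL(p_t ‖ μ) ≤ C₀ e^{-λ t}` fails for every
constant `C₀`: (1) for the Zig-Zag process, (2) for the Bouncy Particle Sampler. -/
theorem result : ∃ U : ℝ → ℝ, (ContDiff ℝ 2 U ∧ (∃ M, ∀ x, |deriv (deriv U) x| ≤ M) ∧
      (Integrable fun x => Real.exp (-U x)) ∧ gibbs U = gaussianReal 0 1) ∧
    ∀ γ : ℝ, 0 < γ → ∀ l : ℝ, 0 < l →
      (∃ p₀ : Measure (ℝ × ℝ), IsProbabilityMeasure p₀ ∧ ExpTails p₀ ∧
        klDiv p₀ ((gibbs U).prod unif) ≠ ∞ ∧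
        ∀ (Ω : Type) [MeasurableSpace Ω] (P : Measure Ω) [IsProbabilityMeasure P]
          (x v : ℝ → Ω → ℝ), IsZZP U γ P p₀ x v → ¬ EntropyDecay P x v ((gibbs U).prod unif) l) ∧
      (∃ p₀ : Measure (ℝ × ℝ), IsProbabilityMeasure p₀ ∧ ExpTails p₀ ∧
        klDiv p₀ ((gibbs U).prod (gaussianReal 0 1)) ≠ ∞ ∧
        ∀ (Ω : Type) [MeasurableSpace Ω] (P : Measure Ω) [IsProbabilityMeasure P]
          (x v : ℝ → Ω → ℝ), IsBPS U γ P p₀ x v →
            ¬ EntropyDecay P x v ((gibbs U).prod (gaussianReal 0 1)) l) := by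
  obtain ⟨g1, g2, g3, g4⟩ := TaskGibbs.main
  refine ⟨fun x => x ^ 2 / 2, ⟨g2, ⟨1, fun x => by rw [g3 x]; simp⟩, g4, g1⟩, ?_⟩
  intro γ _ l hl
  rw [g1]
  exact ⟨zz TaskKLlow.main TaskGauss.main TaskLap.main TaskKLfin.main TaskLimit.main TaskZZ.main
      _ γ l hl,
    bps TaskKLlow.main TaskGauss.main TaskLap.main TaskKLfin.main TaskLimit.main TaskNorm.main
      TaskDisp.main TaskMean.main TaskWMeas.main TaskHalf.main TaskInd.main _ γ l hl⟩

end Pool.Agent.Results.MP_2024f4_pr.NoUniformRate
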